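import Pool.Agent.Q68.Perm.AbsDiff

/-!
# The permanent of `[|j - k| + δ_{jk}]` modulo an odd prime

For every odd prime `p`, `2 per[|j - k| + δ_{jk}]_{1 ≤ j, k ≤ p} ≡ 1 (mod p)`.
-/

set_option autoImplicit false

namespace Pool.Agent.Results.MP_e1bcf3_nt.PermanentUnitDiagonal

theorem result (p : ℕ) (hp : p.Prime) (hp2 : p ≠ 2) :
    2 * (Matrix.of (fun j k : Fin p =>
      |(((j : ℕ) : ℤ) + 1) - (((k : ℕ) : ℤ) + 1)| + if j = k then (1 : ℤ) else 0)).permanent ≡ 1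
        [ZMOD (p : ℤ)] := by
  have h := Pool.Agent.Q68.Perm.per_abs_fin p hp hp2 1
  refine Int.ModEq.symm ((Int.modEq_iff_dvd).mpr ?_)
  simpa using h

end Pool.Agent.Results.MP_e1bcf3_nt.PermanentUnitDiagonal
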